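import Pool.Agent.PFE.StmtsE1

/-!
# Squad PFE, row CZF: the centre of the corner (helper55)
-/

open scoped BigOperators

namespace Pool.Agent.PFE.H55

open Pool.Agent.PFE

section

variable {K A : Type} [Field K] [Ring A] [Algebra K A]

theorem tx_mul_left {y n : A} (h : y * n = n * y) (l : ℕ) (a : A) :
    n * Tx y l (1 : K) a = Tx y l (1 : K) (n * a) := by
  have hc : Commute n y := h.symm
  unfold Tx
  rw [Finset.mul_sum]
  refine Finset.sum_congr rfl fun j _ => ?_
  rw [mul_smul_comm]
  congr 1
  rw [← mul_assoc, ← mul_assoc, (hc.pow_right j).eq, ← mul_assoc]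

theorem tx_mul_right {y n : A} (h : y * n = n * y) (l : ℕ) (a : A) :
    Tx y l (1 : K) a * n = Tx y l (1 : K) (a * n) := by
  have hc : Commute n y := h.symm
  unfold Tx
  rw [Finset.sum_mul]
  refine Finset.sum_congr rfl fun j _ => ?_
  rw [smul_mul_assoc]
  congr 1
  rw [mul_assoc, mul_assoc, ← (hc.pow_right (l - 1 - j)).eq, mul_assoc, mul_assoc]

theorem tx_add (y : A) (l : ℕ) (c : K) (a b : A) :
    Tx y l c (a + b) = Tx y l c a + Tx y l c b := by
  unfold Tx
  rw [← Finset.sum_add_distrib]
  refine Finset.sum_congr rfl fun j _ => ?_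
  rw [mul_add, add_mul, smul_add]

end

section corner

variable {K A A' N : Type} [Field K] [Ring A] [Algebra K A] [Ring A'] [Algebra K A'] [Fintype N]

/-- `z' ↦ ∑ a_k z' b_k` -/
noncomputable def psi (κ : A' →ₗ[K] A) (a b : N → A) : A' →ₗ[K] A where
  toFun z := ∑ k, a k * κ z * b k
  map_add' x y := by
    rw [← Finset.sum_add_distrib]
    refine Finset.sum_congr rfl fun k _ => ?_
    rw [map_add, mul_add, add_mul]
  map_smul' r x := by
    rw [RingHom.id_apply, Finset.smul_sum]
    refine Finset.sum_congr rfl fun k _ => ?_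
    rw [map_smul, mul_smul_comm, smul_mul_assoc]

theorem psi_apply (κ : A' →ₗ[K] A) (a b : N → A) (z : A') :
    psi κ a b z = ∑ k, a k * κ z * b k := rfl

theorem corner_center (f : A) (κ : A' →ₗ[K] A) (a b : N → A) (hff : f * f = f)
    (hinj : Function.Injective κ) (hmul : ∀ a b, κ (a * b) = κ a * κ b) (hone : κ 1 = f)
    (him : ∀ a, f * a * f = a → ∃ b, κ b = a) (h1 : ∑ k, a k * f * b k = 1) :
    Module.finrank K (Subalgebra.center K A) = Module.finrank K (Subalgebra.center K A') := by
  have hfl : ∀ z, f * κ z = κ z := fun z => by rw [← hone, ← hmul, one_mul]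
  have hfr : ∀ z, κ z * f = κ z := fun z => by rw [← hone, ← hmul, mul_one]
  have hcomm : ∀ z : A', z ∈ Subalgebra.center K A' → ∀ m, κ z * (f * m * f) = f * m * f * κ z := by
    intro z hz m
    obtain ⟨b', hb'⟩ := him (f * m * f) (by
      rw [← mul_assoc, ← mul_assoc, hff, mul_assoc (f * m) f f, hff])
    rw [← hb', ← hmul, ← hmul, Subalgebra.mem_center_iff.mp hz b']
  have hcen : ∀ z : A', z ∈ Subalgebra.center K A' → psi κ a b z ∈ Subalgebra.center K A := by
    intro z hz
    rw [Subalgebra.mem_center_iff]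
    intro x
    have e1 : x * psi κ a b z = ∑ i, ∑ k, a i * (f * (b i * x * a k) * f * κ z) * b k := by
      calc x * psi κ a b z = (∑ i, a i * f * b i) * (x * psi κ a b z) := by rw [h1, one_mul]
        _ = ∑ i, ∑ k, a i * (f * (b i * x * a k) * f * κ z) * b k := by
            rw [psi_apply, Finset.sum_mul]
            refine Finset.sum_congr rfl fun i _ => ?_
            rw [Finset.mul_sum, Finset.mul_sum]
            refine Finset.sum_congr rfl fun k _ => ?_
            rw [mul_assoc (f * (b i * x * a k)) f (κ z), hfl]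
            simp only [mul_assoc]
    have e2 : psi κ a b z * x = ∑ i, ∑ k, a i * (κ z * (f * (b i * x * a k) * f)) * b k := by
      calc psi κ a b z * x = psi κ a b z * x * (∑ k, a k * f * b k) := by rw [h1, mul_one]
        _ = ∑ i, ∑ k, a i * (κ z * (f * (b i * x * a k) * f)) * b k := by
            rw [psi_apply, Finset.sum_mul, Finset.sum_mul]
            refine Finset.sum_congr rfl fun i _ => ?_
            rw [Finset.mul_sum]
            refine Finset.sum_congr rfl fun k _ => ?_
            rw [← mul_assoc (κ z) (f * (b i * x * a k)) f, ← mul_assoc (κ z) f, hfr]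
            simp only [mul_assoc]
    rw [e1, e2]
    refine Finset.sum_congr rfl fun i _ => Finset.sum_congr rfl fun k _ => ?_
    rw [hcomm z hz]
  have hres : ∀ z : A', z ∈ Subalgebra.center K A' → psi κ a b z * f = κ z := by
    intro z hz
    calc psi κ a b z * f = ∑ k, a k * f * b k * κ z := by
          rw [psi_apply, Finset.sum_mul]
          refine Finset.sum_congr rfl fun k _ => ?_
          calc a k * κ z * b k * f = a k * (κ z * f) * b k * f := by rw [hfr]
            _ = a k * (κ z * (f * b k * f)) := by simp only [mul_assoc]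
            _ = a k * (f * b k * f * κ z) := by rw [hcomm z hz]
            _ = a k * f * b k * (f * κ z) := by simp only [mul_assoc]
            _ = a k * f * b k * κ z := by rw [hfl]
      _ = κ z := by rw [← Finset.sum_mul, h1, one_mul]
  let Φ : Subalgebra.center K A' →ₗ[K] Subalgebra.center K A :=
    { toFun := fun z => ⟨psi κ a b z.1, hcen z.1 z.2⟩
      map_add' := by
        intro x y
        apply Subtype.ext
        show psi κ a b (x.1 + y.1) = psi κ a b x.1 + psi κ a b y.1
        rw [map_add]
      map_smul' := by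
        intro r x
        apply Subtype.ext
        show psi κ a b (r • x.1) = r • psi κ a b x.1
        rw [map_smul] }
  have hΦ : Function.Bijective Φ := by
    constructor
    · intro x y hxy
      apply Subtype.ext
      apply hinj
      have h' : psi κ a b x.1 = psi κ a b y.1 := congrArg Subtype.val hxy
      rw [← hres x.1 x.2, ← hres y.1 y.2, h']
    · intro z
      have hz : ∀ x, z.1 * x = x * z.1 := fun x => (Subalgebra.mem_center_iff.mp z.2 x).symm
      obtain ⟨z', hz'⟩ := him (z.1 * f) (by
        rw [← mul_assoc f z.1 f, ← hz f, mul_assoc z.1 f f, hff, mul_assoc z.1 f f, hff])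
      have hc' : z' ∈ Subalgebra.center K A' := by
        rw [Subalgebra.mem_center_iff]
        intro x
        apply hinj
        rw [hmul, hmul, hz', ← mul_assoc, ← hz (κ x), mul_assoc z.1 (κ x) f, hfr,
          mul_assoc z.1 f (κ x), hfl]
      refine ⟨⟨z', hc'⟩, ?_⟩
      apply Subtype.ext
      show psi κ a b z' = z.1
      rw [psi_apply]
      calc ∑ k, a k * κ z' * b k = ∑ k, z.1 * (a k * f * b k) := by
            refine Finset.sum_congr rfl fun k _ => ?_
            rw [hz', ← mul_assoc (a k) z.1 f, ← hz (a k)]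
            simp only [mul_assoc]
        _ = z.1 := by rw [← Finset.mul_sum, h1, mul_one]
  exact (LinearEquiv.ofBijective Φ hΦ).finrank_eq.symm

end corner

theorem czf (hRTK : RtkStmt) : CzfStmt := by
  intro K A X J Ω Ω' A' _ _ _ _ _ _ _ _ y l χ D f _ _ κ hff hyf ⟨a0, ha0⟩ hinj hmul hone him
  obtain ⟨-, -, h3, -, h5, -⟩ := hRTK K A X J Ω Ω' y l χ D.toYd
  have hRTadd : ∀ a b, D.RT (a + b) = D.RT a + D.RT b := by
    intro a b
    unfold Yd.RT
    rw [← Finset.sum_add_distrib]
    refine Finset.sum_congr rfl fun r _ => ?_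
    rw [mul_add, add_mul]
  have hwf : D.w = f * D.w * f + Tx y l (1 : K) (a0 * D.w + f * D.w * a0) := by
    have hfw : y * (f * D.w) = f * D.w * y := by
      rw [← mul_assoc, hyf, mul_assoc, D.wy, mul_assoc]
    rw [tx_add, ← tx_mul_right D.wy, ← tx_mul_left hfw, ← ha0, sub_mul, mul_sub, one_mul, mul_one]
    abel
  have hyw : y * (f * D.w * f) = f * D.w * f * y := by
    have hfw : y * (f * D.w) = f * D.w * y := by
      rw [← mul_assoc, hyf, mul_assoc, D.wy, mul_assoc]
    rw [← mul_assoc, hfw, mul_assoc, hyf]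
    simp only [mul_assoc]
  have hu : D.RT (f * D.w * f) = 1 - D.TA (a0 * D.w + f * D.w * a0) := by
    have h := hRTadd (f * D.w * f) (Tx y l (1 : K) (a0 * D.w + f * D.w * a0))
    rw [← hwf, D.rw, h5] at h
    rw [h, add_sub_cancel_right]
  have hunit : IsUnit (D.RT (f * D.w * f)) := by
    rw [hu]
    exact (D.np _).isUnit_one_sub
  obtain ⟨U, hU⟩ := hunit
  have hcen : ∀ b, b * D.RT (f * D.w * f) = D.RT (f * D.w * f) * b := h3 _ hyw
  refine corner_center (N := Ω ⊕ (Ω' × Fin l)) f κ (fun r => (U⁻¹ : Aˣ) * D.e r)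
    (fun r => D.w * f * D.e' r) hff hinj hmul hone him ?_
  calc ∑ r, (U⁻¹ : Aˣ) * D.e r * f * (D.w * f * D.e' r)
      = (U⁻¹ : Aˣ) * D.RT (f * D.w * f) := by
        unfold Yd.RT
        rw [Finset.mul_sum]
        refine Finset.sum_congr rfl fun r _ => ?_
        simp only [mul_assoc]
    _ = 1 := by rw [← hU, Units.inv_mul]

end Pool.Agent.PFE.H55
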