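import Pool.Agent.PFE.StmtsE1

/-!
# Squad PFE, row TWT: `1 - j pr` is a two-sided trace over `K[y]` (helper55)
-/

open scoped BigOperators

namespace Pool.Agent.PFE.H55

open Pool.Agent.PFE

section shift

variable {K M : Type} [Field K] [AddCommGroup M] [Module K M]

theorem sum_shift (l j : ℕ) (hj : j ≤ l) (F : ℕ → K) (G : ℕ → M) (hF : ∀ m, l ≤ m → F m = 0)
    (hG : ∀ m, l ≤ m → G m = 0) :
    ∑ i ∈ Finset.range l, F (l - 1 - i) • G (i + j) =
      ∑ i ∈ Finset.range l, F (l - 1 - i + j) • G i := by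
  rw [← Finset.sum_range_add_sum_Ico (fun i => F (l - 1 - i) • G (i + j)) (Nat.sub_le l j),
    ← Finset.sum_range_add_sum_Ico (fun i => F (l - 1 - i + j) • G i) hj,
    Finset.sum_Ico_eq_sum_range (fun i => F (l - 1 - i + j) • G i) j l]
  have h1 : ∑ i ∈ Finset.Ico (l - j) l, F (l - 1 - i) • G (i + j) = 0 := by
    refine Finset.sum_eq_zero fun i hi => ?_
    rw [hG (i + j) (by have := (Finset.mem_Ico.mp hi).1; omega), smul_zero]
  have h2 : ∑ i ∈ Finset.range j, F (l - 1 - i + j) • G i = 0 := by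
    refine Finset.sum_eq_zero fun i hi => ?_
    rw [hF (l - 1 - i + j) (by have := Finset.mem_range.mp hi; omega), zero_smul]
  rw [h1, h2, add_zero, zero_add]
  refine Finset.sum_congr rfl fun i hi => ?_
  have hi' := Finset.mem_range.mp hi
  rw [add_comm j i, show l - 1 - (i + j) + j = l - 1 - i by omega]

end shift

section pow

variable {K A : Type} [Field K] [Ring A] [Algebra K A]

/-- `g' y = c y g'` gives `y^m g' = c^(l-1-m) g' y^m` -/
theorem pow_comm {y g' : A} {c : K} {l : ℕ} (hc : c ^ (l - 1) = 1) (h : g' * y = c • (y * g')) :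
    ∀ m, m ≤ l - 1 → y ^ m * g' = c ^ (l - 1 - m) • (g' * y ^ m) := by
  have key : ∀ m, g' * y ^ m = c ^ m • (y ^ m * g') := by
    intro m
    induction m with
    | zero => rw [pow_zero, pow_zero, one_smul, mul_one, one_mul]
    | succ m ih =>
      rw [pow_succ, ← mul_assoc, ih, smul_mul_assoc, mul_assoc, h, mul_smul_comm, smul_smul,
        ← pow_succ, mul_assoc]
  intro m hm
  rw [key m, smul_smul, ← pow_add, Nat.sub_add_cancel hm, hc, one_smul]

theorem twisted_part {y g' x a : A} {c : K} {l : ℕ} (lam : A →ₗ[K] K)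
    (hs : ∀ a b, lam (a * b) = lam (b * a)) (hc : c ^ (l - 1) = 1) (hl : y ^ l = 0)
    (h : g' * y = c • (y * g')) :
    ∑ i ∈ Finset.range l, lam (g' * y ^ (l - 1 - i) * a) • (y ^ i * Tx y l c x) =
      ∑ i ∈ Finset.range l, ∑ k ∈ Finset.range l,
        lam (g' * (y ^ (l - 1 - i) * a * y ^ (l - 1 - k))) • (y ^ i * x * y ^ k) := by
  have hz : ∀ m, l ≤ m → y ^ m = 0 := fun m hm => pow_eq_zero_of_le hm hl
  have e1 : ∀ i ∈ Finset.range l, ∀ k ∈ Finset.range l,
      lam (g' * (y ^ (l - 1 - i) * a * y ^ (l - 1 - k))) • (y ^ i * x * y ^ k) =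
        c ^ k • (lam (g' * y ^ (l - 1 - i + (l - 1 - k)) * a) • (y ^ i * x * y ^ k)) := by
    intro i _ k hk
    have hk' := Finset.mem_range.mp hk
    have e : lam (g' * (y ^ (l - 1 - i) * a * y ^ (l - 1 - k))) =
        c ^ k * lam (g' * y ^ (l - 1 - i + (l - 1 - k)) * a) := by
      rw [show g' * (y ^ (l - 1 - i) * a * y ^ (l - 1 - k)) =
        (g' * (y ^ (l - 1 - i) * a)) * y ^ (l - 1 - k) by simp only [mul_assoc], hs,
        ← mul_assoc, pow_comm hc h (l - 1 - k) (Nat.sub_le _ _), smul_mul_assoc, map_smul,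
        smul_eq_mul, show l - 1 - (l - 1 - k) = k by omega, add_comm (l - 1 - i), pow_add]
      simp only [mul_assoc]
    rw [e, mul_smul]
  rw [Finset.sum_congr rfl fun i hi => Finset.sum_congr rfl (e1 i hi), Finset.sum_comm]
  have e2 : ∀ k ∈ Finset.range l,
      ∑ i ∈ Finset.range l, c ^ k • (lam (g' * y ^ (l - 1 - i + (l - 1 - k)) * a) •
        (y ^ i * x * y ^ k)) =
      ∑ i ∈ Finset.range l, lam (g' * y ^ (l - 1 - i) * a) •
        (y ^ i * (c ^ k • (y ^ (l - 1 - k) * x * y ^ k))) := by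
    intro k hk
    rw [← Finset.smul_sum,
      ← sum_shift l (l - 1 - k) (by omega) (fun m => lam (g' * y ^ m * a))
        (fun m => y ^ m * x * y ^ k) (fun m hm => by
          show lam (g' * y ^ m * a) = 0
          rw [hz m hm, mul_zero, zero_mul, map_zero]) (fun m hm => by
          show y ^ m * x * y ^ k = 0
          rw [hz m hm, zero_mul, zero_mul]), Finset.smul_sum]
    refine Finset.sum_congr rfl fun i _ => ?_
    show c ^ k • (lam (g' * y ^ (l - 1 - i) * a) • (y ^ (i + (l - 1 - k)) * x * y ^ k)) = _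
    rw [smul_comm, mul_smul_comm, pow_add]
    simp only [mul_assoc]
  rw [Finset.sum_congr rfl e2, Finset.sum_comm]
  refine Finset.sum_congr rfl fun i _ => ?_
  rw [← Finset.smul_sum, ← Finset.mul_sum]
  congr 2
  unfold Tx
  rw [← Finset.sum_range_reflect]
  refine Finset.sum_congr rfl fun j hj => ?_
  have hj' := Finset.mem_range.mp hj
  rw [show l - 1 - (l - 1 - j) = j by omega]

end pow

theorem twt (hKNX : KnxStmt) : TwtStmt := by
  intro K A X S J Ω Ω' C _ _ _ _ _ _ _ _ _ _ _ _ y l χ D L F E pr hp1 hp2 hp3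
  -- `q = 1 - j pr`
  let q : A →ₗ[K] A := LinearMap.id - E.j.toLinearMap ∘ₗ pr
  have hq : ∀ a, q a = a - E.j (pr a) := fun a => rfl
  have hjy : ∀ i, E.j (E.Q.y ^ i) = y ^ i := by
    intro i
    rw [map_pow, E.jy]
  have hql : ∀ i a, q (y ^ i * a) = y ^ i * q a := by
    intro i a
    have h := hp2 (E.Q.y ^ i) a
    rw [hjy i] at h
    rw [hq, hq, h, map_mul, hjy i, mul_sub]
  have hqr : ∀ i a, q (a * y ^ i) = q a * y ^ i := by
    intro i a
    have h := hp3 a (E.Q.y ^ i)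
    rw [hjy i] at h
    rw [hq, hq, h, map_mul, hjy i, sub_mul]
  have hknx : ∀ o, ∃ x, q (D.g o) = Tx y l (χ (D.deg o)) x := fun o =>
    hKNX K A X S J Ω Ω' C y l χ D L F E pr hp1 hp2 hp3 (D.deg o) (D.g o) (D.gy o)
  choose x hx using hknx
  let ψ : A →ₗ[K] A :=
    (∑ o, ((D.d.lam ∘ₗ LinearMap.mulLeft K (D.g' o)).smulRight (x o))) +
      ∑ o, ((D.d.lam ∘ₗ LinearMap.mulLeft K (D.h' o)).smulRight (q (D.h o)))
  have hψ : ∀ z, ψ z = (∑ o, D.d.lam (D.g' o * z) • x o) +
      ∑ o, D.d.lam (D.h' o * z) • q (D.h o) := by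
    intro z
    show ((∑ o, ((D.d.lam ∘ₗ LinearMap.mulLeft K (D.g' o)).smulRight (x o))) +
      ∑ o, ((D.d.lam ∘ₗ LinearMap.mulLeft K (D.h' o)).smulRight (q (D.h o)))) z = _
    rw [LinearMap.add_apply, LinearMap.sum_apply, LinearMap.sum_apply]
    rfl
  refine ⟨ψ, fun a => ?_⟩
  have e1 : q a = (∑ o, ∑ i ∈ Finset.range l, D.d.lam (D.g' o * y ^ (l - 1 - i) * a) •
      (y ^ i * Tx y l (χ (D.deg o)) (x o))) +
    ∑ o, ∑ i ∈ Finset.range l, ∑ k ∈ Finset.range l,
      D.d.lam (D.h' o * (y ^ (l - 1 - i) * a * y ^ (l - 1 - k))) • (y ^ i * q (D.h o) * y ^ k) := by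
    conv_lhs => rw [← D.fr a]
    rw [map_add, map_sum, map_sum]
    congr 1
    · refine Finset.sum_congr rfl fun o _ => ?_
      rw [map_sum]
      refine Finset.sum_congr rfl fun i _ => ?_
      rw [map_smul, hql, hx]
    · refine Finset.sum_congr rfl fun o _ => ?_
      rw [map_sum]
      refine Finset.sum_congr rfl fun i _ => ?_
      rw [map_sum]
      refine Finset.sum_congr rfl fun k _ => ?_
      rw [map_smul, hqr, hql]
  have e2 : ∑ i ∈ Finset.range l, ∑ k ∈ Finset.range l,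
      y ^ i * ψ (y ^ (l - 1 - i) * a * y ^ (l - 1 - k)) * y ^ k =
      (∑ o, ∑ i ∈ Finset.range l, ∑ k ∈ Finset.range l,
        D.d.lam (D.g' o * (y ^ (l - 1 - i) * a * y ^ (l - 1 - k))) • (y ^ i * x o * y ^ k)) +
      ∑ o, ∑ i ∈ Finset.range l, ∑ k ∈ Finset.range l,
        D.d.lam (D.h' o * (y ^ (l - 1 - i) * a * y ^ (l - 1 - k))) •
          (y ^ i * q (D.h o) * y ^ k) := by
    rw [Finset.sum_comm (s := (Finset.univ : Finset Ω)), Finset.sum_comm
      (s := (Finset.univ : Finset Ω')), ← Finset.sum_add_distrib]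
    refine Finset.sum_congr rfl fun i _ => ?_
    rw [Finset.sum_comm (s := (Finset.univ : Finset Ω)), Finset.sum_comm
      (s := (Finset.univ : Finset Ω')), ← Finset.sum_add_distrib]
    refine Finset.sum_congr rfl fun k _ => ?_
    rw [hψ, mul_add, add_mul, Finset.mul_sum, Finset.sum_mul, Finset.mul_sum, Finset.sum_mul]
    congr 1
    · refine Finset.sum_congr rfl fun o _ => ?_
      rw [mul_smul_comm, smul_mul_assoc]
    · refine Finset.sum_congr rfl fun o _ => ?_
      rw [mul_smul_comm, smul_mul_assoc]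
  rw [← hq a, e1, e2]
  congr 1
  refine Finset.sum_congr rfl fun o _ => ?_
  exact twisted_part D.d.lam D.ds (D.χl (D.deg o)) D.yl (D.g'y o)

end Pool.Agent.PFE.H55
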